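import Pool.Agent.LNG.KatoStrict
import Pool.Agent.LNG.RankLog

set_option autoImplicit false
set_option backward.isDefEq.respectTransparency false

/-!
# Kummer covers of the log point are log étale

`L` is an étale algebra over the field `k` (for example a finite separable extension), `m ≥ 1` is
invertible in `k`: the fs log scheme `Spec L[y]/(y^m)` with the log structure `O^× × y^ℕ`, over the
log point by `π ↦ y^m`, is log étale over the log point `RL.pt k`.
-/

namespace Pool.Agent.LNQ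

open CategoryTheory AlgebraicGeometry TopologicalSpace
open Pool.Agent.LNG

theorem strict_id (X : LogScheme) : LogScheme.Strict (𝟙 X) := by
  intro V P _ _ c hc
  exact hc

/-- the pushout of `ℤ[ℕ] → A`, `1 ↦ 0`, and the `m`-th power -/
theorem poM {A B : CommRingCat.{0}} (i : A ⟶ B) (e : B) (m : ℕ) (he : e ^ m = 0)
    (hu : ∀ (C : CommRingCat.{0}) (a : A ⟶ C) (y : C), y ^ m = 0 →
      ∃! f : B ⟶ C, i ≫ f = a ∧ f.hom e = y)
    (c : Multiplicative ℕ →* A) (hc : c (Multiplicative.ofAdd 1) = 0)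
    (d : Multiplicative ℕ →* B) (hd : d (Multiplicative.ofAdd 1) = e) :
    IsPushout (LogScheme.ofMon c) (LogScheme.mapMon (powMonoidHom m)) i (LogScheme.ofMon d) := by
  have hw : LogScheme.ofMon c ≫ i = LogScheme.mapMon (powMonoidHom m) ≫ LogScheme.ofMon d := by
    apply RL.zz_ext
    change i.hom ((LogScheme.ofMon c).hom _) = (LogScheme.ofMon d).hom
      ((LogScheme.mapMon (powMonoidHom m)).hom _)
    rw [RL.ofMon_single, RL.mapMon_single, RL.ofMon_single, hc, map_zero, powMonoidHom_apply,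
      map_pow, hd, he]
  have key : ∀ (s : Limits.PushoutCocone (LogScheme.ofMon c) (LogScheme.mapMon (powMonoidHom m))),
      s.inr.hom (MonoidAlgebra.single (Multiplicative.ofAdd 1) 1) ^ m = 0 := by
    intro s
    have h1 := congrArg (fun f => f.hom (MonoidAlgebra.single (Multiplicative.ofAdd 1) 1))
      s.condition
    change s.inl.hom ((LogScheme.ofMon c).hom _) = s.inr.hom
      ((LogScheme.mapMon (powMonoidHom m)).hom _) at h1
    rw [RL.ofMon_single, RL.mapMon_single, hc, map_zero, powMonoidHom_apply] at h1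
    rw [← map_pow, h1, MonoidAlgebra.single_pow, one_pow]
  refine ⟨⟨hw⟩, ⟨Limits.PushoutCocone.IsColimit.mk hw
    (fun s => (hu s.pt s.inl _ (key s)).choose) ?_ ?_ ?_⟩⟩
  · intro s
    exact (hu s.pt s.inl _ (key s)).choose_spec.1.1
  · intro s
    apply RL.zz_ext
    change (hu s.pt s.inl _ (key s)).choose.hom ((LogScheme.ofMon d).hom _) = _
    rw [RL.ofMon_single, hd]
    exact (hu s.pt s.inl _ (key s)).choose_spec.1.2
  · intro s f h1 h2
    refine (hu s.pt s.inl _ (key s)).choose_spec.2 f ⟨h1, ?_⟩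
    rw [← h2]
    change _ = f.hom ((LogScheme.ofMon d).hom _)
    rw [RL.ofMon_single, hd]

theorem kerCoker_pow (m : ℕ) :
    LogScheme.KerCoker (powMonoidHom m : Multiplicative ℕ →* Multiplicative ℕ) m := by
  refine ⟨fun p p' h => h, fun q => ⟨1, q, ?_⟩⟩
  rw [map_one, mul_one, powMonoidHom_apply]

section

variable (k : Type) [Field k] (L : Type) [CommRing L] [Algebra k L] (m : ℕ)

/-- the ring `L[y]/(y^m)` -/
abbrev LA (L : Type) [CommRing L] (m : ℕ) : Type := AdjoinRoot ((Polynomial.X : Polynomial L) ^ m)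

theorem rootL_pow (L : Type) [CommRing L] (m : ℕ) :
    (AdjoinRoot.root ((Polynomial.X : Polynomial L) ^ m)) ^ m = 0 := by
  have h := AdjoinRoot.mk_self (f := (Polynomial.X : Polynomial L) ^ m)
  rwa [map_pow, AdjoinRoot.mk_X] at h

/-- the ring homomorphism `k[y]/(y^m) → L[y]/(y^m)` -/
noncomputable def mapA : LA k m →+* LA L m :=
  AdjoinRoot.lift ((AdjoinRoot.of _).comp (algebraMap k L)) (AdjoinRoot.root _) (by
    rw [Polynomial.eval₂_pow, Polynomial.eval₂_X, rootL_pow])

theorem mapA_of (x : k) : mapA k L m (AdjoinRoot.of _ x) = AdjoinRoot.of _ (algebraMap k L x) :=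
  AdjoinRoot.lift_of _

theorem mapA_root : mapA k L m (AdjoinRoot.root _) = AdjoinRoot.root _ := AdjoinRoot.lift_root _

/-- `L[y]/(y^m)` is the base change of `L` -/
theorem isPushout_LA : IsPushout (CommRingCat.ofHom (algebraMap k L))
    (CommRingCat.ofHom (AdjoinRoot.of ((Polynomial.X : Polynomial k) ^ m)))
    (CommRingCat.ofHom (AdjoinRoot.of ((Polynomial.X : Polynomial L) ^ m)))
    (CommRingCat.ofHom (mapA k L m)) := by
  have hw : CommRingCat.ofHom (algebraMap k L) ≫
      CommRingCat.ofHom (AdjoinRoot.of ((Polynomial.X : Polynomial L) ^ m)) =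
      CommRingCat.ofHom (AdjoinRoot.of ((Polynomial.X : Polynomial k) ^ m)) ≫
      CommRingCat.ofHom (mapA k L m) := by
    apply CommRingCat.hom_ext
    ext x
    exact (mapA_of k L m x).symm
  have hs : ∀ s : Limits.PushoutCocone (CommRingCat.ofHom (algebraMap k L))
      (CommRingCat.ofHom (AdjoinRoot.of ((Polynomial.X : Polynomial k) ^ m))),
      ((Polynomial.X : Polynomial L) ^ m).eval₂ s.inl.hom (s.inr.hom (AdjoinRoot.root _)) = 0 := by
    intro s
    rw [Polynomial.eval₂_pow, Polynomial.eval₂_X, ← map_pow, rootL_pow, map_zero]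
  refine ⟨⟨hw⟩, ⟨Limits.PushoutCocone.IsColimit.mk hw
    (fun s => CommRingCat.ofHom (AdjoinRoot.lift s.inl.hom (s.inr.hom (AdjoinRoot.root _)) (hs s)))
    ?_ ?_ ?_⟩⟩
  · intro s
    apply CommRingCat.hom_ext
    ext x
    exact AdjoinRoot.lift_of (hs s)
  · intro s
    apply CommRingCat.hom_ext
    apply AdjoinRoot.ringHom_ext
    · ext x
      refine (congrArg _ (mapA_of k L m x)).trans ?_
      refine (AdjoinRoot.lift_of (hs s)).trans ?_
      exact congrArg (fun f => f.hom x) s.condition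
    · refine (congrArg _ (mapA_root k L m)).trans ?_
      exact AdjoinRoot.lift_root (hs s)
  · intro s f h1 h2
    apply CommRingCat.hom_ext
    apply AdjoinRoot.ringHom_ext
    · ext x
      refine Eq.trans ?_ (AdjoinRoot.lift_of (hs s)).symm
      exact congrArg (fun f => f.hom x) h1
    · refine Eq.trans ?_ (AdjoinRoot.lift_root (hs s)).symm
      have h3 := congrArg (fun f => f.hom (AdjoinRoot.root _)) h2
      change f.hom (mapA k L m (AdjoinRoot.root _)) = _ at h3
      rw [mapA_root] at h3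
      exact h3

theorem etale_of_isPushout {A B C D : Type} [CommRing A] [CommRing B] [CommRing C] [CommRing D]
    (f : A →+* B) (g : A →+* C) (f' : B →+* D) (g' : C →+* D)
    (h : IsPushout (CommRingCat.ofHom f) (CommRingCat.ofHom g) (CommRingCat.ofHom f')
      (CommRingCat.ofHom g')) (hf : f.Etale) : g'.Etale := by
  let _ : Algebra A B := f.toAlgebra
  let _ : Algebra A C := g.toAlgebra
  let _ : Algebra B D := f'.toAlgebra
  let _ : Algebra C D := g'.toAlgebra
  let _ : Algebra A D := (g'.comp g).toAlgebra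
  have t1 : IsScalarTower A C D := IsScalarTower.of_algebraMap_eq fun x => rfl
  have t2 : IsScalarTower A B D := IsScalarTower.of_algebraMap_eq fun x =>
    (congrArg (fun F => F.hom x) h.w).symm
  have h1 : IsPushout (CommRingCat.ofHom (algebraMap A C)) (CommRingCat.ofHom (algebraMap A B))
      (CommRingCat.ofHom (algebraMap C D)) (CommRingCat.ofHom (algebraMap B D)) := h.flip
  have h2 := (CommRingCat.isPushout_iff_isPushout (R := A) (S := B) (R' := C) (S' := D)).1 h1
  have h3 : (algebraMap A B).Etale := hf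
  have h2' := h2.symm
  exact RingHom.Etale.isStableUnderBaseChange A B C D h3

theorem etale_mapA [Algebra.Etale k L] : (mapA k L m).Etale :=
  etale_of_isPushout _ _ _ _ (isPushout_LA k L m) (RingHom.etale_algebraMap.2 inferInstance)

/-- the scheme `Spec L[y]/(y^m)` -/
noncomputable abbrev LZ (L : Type) [CommRing L] (m : ℕ) : Scheme.{0} := Spec (.of (LA L m))

/-- the function `y` -/
noncomputable def yL (L : Type) [CommRing L] (m : ℕ) : Γ(LZ L m, ⊤) :=
  (Scheme.ΓSpecIso (.of (LA L m))).inv.hom (AdjoinRoot.root _)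

theorem yL_pow (L : Type) [CommRing L] (m : ℕ) : yL L m ^ m = 0 := by
  rw [yL, ← map_pow, rootL_pow, map_zero]

theorem noUnit_yL (L : Type) [CommRing L] (m : ℕ) : R1.NoUnit (LZ L m) (yL L m) :=
  RL.noUnit_of_nilp _ _ ⟨m, yL_pow L m⟩

/-- the log scheme `Spec L[y]/(y^m)` with the log structure `O^× × y^ℕ` -/
noncomputable def kumL (L : Type) [CommRing L] (m : ℕ) : LogScheme :=
  R (LZ L m) (yL L m) (noUnit_yL L m)

/-- the structure morphism of schemes -/
noncomputable def strL : LZ L m ⟶ RL.Pk k :=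
  Spec.map (CommRingCat.ofHom ((AdjoinRoot.of _).comp (algebraMap k L)))

/-- the Kummer cover of the log point, `π ↦ y^m` -/
noncomputable def kumTo : kumL L m ⟶ RL.pt k :=
  R1.homTo (LNA.noUnit_zero _) (T := kumL L m) (strL k L m)
    (R1.gen (LZ L m) (yL L m) ^ m : R1.Sec (yL L m) ⊤) (by
      have h1 : ((kumL L m).L.α ⊤) (R1.gen (LZ L m) (yL L m) ^ m : R1.Sec (yL L m) ⊤) =
          yL L m ^ m := map_pow ((kumL L m).L.α ⊤) (R1.gen (LZ L m) (yL L m)) m
      exact h1.trans ((yL_pow L m).trans (map_zero (Scheme.Hom.app (strL k L m) ⊤).hom).symm))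

theorem kumTo_gen : LogScheme.Hom.φ (kumTo k L m) ⊤ (R1.gen (RL.Pk k) 0) =
    (R1.gen (LZ L m) (yL L m) ^ m : R1.Sec (yL L m) ⊤) := R1.homTo_gen _ _ _ _

/-- `O_s → k[y]/(y^m)` -/
noncomputable def iB : Γ(RL.Pk k, ⊤) ⟶ CommRingCat.of (LA k m) :=
  (Scheme.ΓSpecIso (.of k)).hom ≫ CommRingCat.ofHom (AdjoinRoot.of _)

theorem iB_univ (C : CommRingCat.{0}) (a : Γ(RL.Pk k, ⊤) ⟶ C) (y : C) (hy : y ^ m = 0) :
    ∃! f : CommRingCat.of (LA k m) ⟶ C, iB k m ≫ f = a ∧ f.hom (AdjoinRoot.root _) = y := by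
  have hs : ((Polynomial.X : Polynomial k) ^ m).eval₂
      ((Scheme.ΓSpecIso (.of k)).inv ≫ a).hom y = 0 := by
    rw [Polynomial.eval₂_pow, Polynomial.eval₂_X, hy]
  refine ⟨CommRingCat.ofHom (AdjoinRoot.lift ((Scheme.ΓSpecIso (.of k)).inv ≫ a).hom y hs),
    ⟨?_, AdjoinRoot.lift_root hs⟩, ?_⟩
  · rw [iB, Category.assoc, ← Iso.eq_inv_comp]
    apply CommRingCat.hom_ext
    ext x
    exact AdjoinRoot.lift_of hs
  · rintro g ⟨h1, h2⟩
    apply CommRingCat.hom_ext
    apply AdjoinRoot.ringHom_ext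
    · ext x
      refine Eq.trans ?_ (AdjoinRoot.lift_of hs).symm
      rw [iB, Category.assoc, ← Iso.eq_inv_comp] at h1
      exact congrArg (fun f => f.hom x) h1
    · exact h2.trans (AdjoinRoot.lift_root hs).symm

/-- `k[y]/(y^m) → O` -/
noncomputable def rB : CommRingCat.of (LA k m) ⟶ Γ(LZ L m, ⊤) :=
  CommRingCat.ofHom (mapA k L m) ≫ (Scheme.ΓSpecIso (.of (LA L m))).inv

theorem iB_rB : iB k m ≫ rB k L m = (strL k L m).app ⊤ := by
  rw [iB, rB, Category.assoc, ← Iso.eq_inv_comp]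
  have h1 := Scheme.ΓSpecIso_inv_naturality
    (CommRingCat.ofHom ((AdjoinRoot.of ((Polynomial.X : Polynomial L) ^ m)).comp (algebraMap k L)))
  refine Eq.trans ?_ h1
  rw [← Category.assoc]
  congr 1
  apply CommRingCat.hom_ext
  ext x
  exact mapA_of k L m x

theorem rB_root : (rB k L m).hom (AdjoinRoot.root _) = yL L m :=
  congrArg (Scheme.ΓSpecIso (.of (LA L m))).inv.hom (mapA_root k L m)

theorem etale_rB [Algebra.Etale k L] : (rB k L m).hom.Etale :=
  RingHom.Etale.respectsIso.1 (mapA k L m)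
    (Scheme.ΓSpecIso (.of (LA L m))).symm.commRingCatIsoToRingEquiv (etale_mapA k L m)

/-- Kummer covers are log étale (chart criterion). -/
theorem logEtale_kumTo [Algebra.Etale k L] (h0 : m ≠ 0) (hm : (m : k) ≠ 0) :
    LogScheme.LogEtale (kumTo k L m) := by
  intro z
  have hAff : IsAffine (kumL L m).X := inferInstanceAs (IsAffine (LZ L m))
  have hV : (⊤ : (kumL L m).X.Opens) ≤
      ((𝟙 (kumL L m) : kumL L m ⟶ kumL L m) ≫ kumTo k L m).f ⁻¹ᵁ (⊤ : (RL.Pk k).Opens) :=
    fun _ _ => trivial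
  have hc : (RL.pt k).L.IsChart (⊤ : (RL.Pk k).Opens) (R1.chart (RL.Pk k) 0 ⊤) :=
    R1.isChart (LNA.noUnit_zero _) _
  have hd : (kumL L m).L.IsChart ⊤ (R1.chart (LZ L m) (yL L m) ⊤) := R1.isChart (noUnit_yL L m) _
  refine ⟨kumL L m, 𝟙 _, strict_id _, inferInstanceAs (Etale (𝟙 (LZ L m))), hAff, ⟨z, rfl⟩,
    (⊤ : (RL.Pk k).Opens), hV, isAffineOpen_top (RL.Pk k),
    Multiplicative ℕ, Multiplicative ℕ, inferInstance, inferInstance,
    R1.chart (RL.Pk k) 0 ⊤, R1.chart (LZ L m) (yL L m) ⊤,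
    powMonoidHom m, inferInstance, inferInstance, hc,
    hd, ?_, ⟨m, Nat.pos_of_ne_zero h0, ?_, kerCoker_pow m⟩,
    CommRingCat.of (LA k m), iB k m, LogScheme.ofMon (powersHom _ (AdjoinRoot.root _)),
    rB k L m, poM _ (AdjoinRoot.root _) m (rootL_pow k m) (iB_univ k m) _ ?_ _ ?_, ?_, ?_,
    etale_rB k L m⟩
  · intro p
    have e1 : (R1.chart (RL.Pk k) 0 ⊤ p : (RL.pt k).M ⊤) =
        (R1.gen (RL.Pk k) 0 : (RL.pt k).M ⊤) ^ p.toAdd := by
      refine (R1.chart_apply _ _).trans ?_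
      exact congrArg (· ^ p.toAdd) ((R1.logStr (RL.Pk k) 0 (LNA.noUnit_zero _)).res_id ⊤ _)
    have e2 : LogScheme.Hom.φ (kumTo k L m) ⊤ (R1.chart (RL.Pk k) 0 ⊤ p : (RL.pt k).M ⊤) =
        (R1.gen (LZ L m) (yL L m) ^ (m * p.toAdd) : R1.Sec (yL L m) ⊤) := by
      rw [e1, map_pow, kumTo_gen, pow_mul]
    have e3 : R1.chart (LZ L m) (yL L m) ⊤ (powMonoidHom m p) =
        (R1.gen (LZ L m) (yL L m) ^ (m * p.toAdd) : R1.Sec (yL L m) ⊤) := by
      refine (R1.chart_apply _ _).trans ?_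
      have e4 : (powMonoidHom m p).toAdd = m * p.toAdd := by
        rw [powMonoidHom_apply, toAdd_pow, smul_eq_mul]
      rw [e4]
      exact congrArg (· ^ (m * p.toAdd)) ((kumL L m).L.res_id ⊤ (R1.gen (LZ L m) (yL L m)))
    refine e3.trans ?_
    refine Eq.trans ?_ ((kumL L m).L.res_id _ _).symm
    exact e2.symm
  · have u1 : IsUnit ((m : ℕ) : Γ(RL.Pk k, ⊤)) := by
      have h3 : IsUnit ((m : ℕ) : k) := hm.isUnit
      have h4 := h3.map (Scheme.ΓSpecIso (.of k)).inv.hom
      rwa [map_natCast] at h4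
    have u2 := u1.map (strL k L m).appTop.hom
    rwa [map_natCast] at u2
  · have e1 : (R1.chart (RL.Pk k) 0 ⊤ (Multiplicative.ofAdd 1)).f = 0 := by
      rw [R1.chart_apply, toAdd_ofAdd, pow_one, R1.res_f]
      exact map_zero _
    exact e1
  · rw [powersHom_apply, toAdd_ofAdd, pow_one]
  · refine (iB_rB k L m).trans ?_
    apply CommRingCat.hom_ext
    ext s
    exact (R1.rs_id _ _).symm
  · apply RL.zz_ext
    change (rB k L m).hom ((LogScheme.ofMon _).hom _) = (LogScheme.ofMon _).hom _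
    rw [RL.ofMon_single, RL.ofMon_single, powersHom_apply, toAdd_ofAdd, pow_one]
    have e1 : (R1.chart (LZ L m) (yL L m) ⊤ (Multiplicative.ofAdd 1)).f = yL L m := by
      rw [R1.chart_apply, toAdd_ofAdd, pow_one, R1.res_f]
      exact R1.rs_id _ _
    exact (rB_root k L m).trans e1.symm

end

end Pool.Agent.LNQ
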