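import Pool.Agent.LNG.OpenLift
import Pool.Agent.LNG.Point

set_option autoImplicit false
set_option backward.isDefEq.respectTransparency false

/-!
# The presheaf `T m` is represented by the Kummer cover `s_m`

`s_m` is the fs log scheme `Spec k̄[y]/(y^m)` with the log structure `O^× × y^ℕ`, over the log point
by `π ↦ y^m`.  (A sanity check of the definition of the log geometric fibre.)
-/

namespace Pool.Agent.LNQ

open CategoryTheory AlgebraicGeometry TopologicalSpace Opposite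
open Pool.Agent.LNG Pool.Agent.LNA

/-! ## Morphisms to affine schemes -/

/-- the morphism to `Spec R` given by a ring homomorphism -/
noncomputable def toSp {X : Scheme.{0}} {R : CommRingCat.{0}} (φ : R ⟶ Γ(X, ⊤)) : X ⟶ Spec R :=
  X.toSpecΓ ≫ Spec.map φ

theorem toSp_appTop {X : Scheme.{0}} {R : CommRingCat.{0}} (φ : R ⟶ Γ(X, ⊤)) :
    (toSp φ).appTop = (Scheme.ΓSpecIso R).hom ≫ φ := by
  rw [toSp, Scheme.Hom.comp_appTop, Scheme.toSpecΓ_appTop, Scheme.ΓSpecIso_naturality]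

/-! ## The universal property of a log point -/

section pt

variable {k : Type} [Field k] (P : LNS.LogPt k)

/-- the functions on the log point -/
noncomputable def psi : Γ(P.s.X, ⊤) ≅ CommRingCat.of k :=
  asIso P.e.inv.appTop ≪≫ Scheme.ΓSpecIso (.of k)

theorem isUnit_of_ne {x : Γ(P.s.X, ⊤)} (hx : x ≠ 0) : IsUnit x := by
  have h1 : (psi P).hom.hom x ≠ 0 := by
    intro h
    apply hx
    have h2 := congrArg (psi P).inv.hom h
    rw [map_zero] at h2
    have h3 : (psi P).inv.hom ((psi P).hom.hom x) = x :=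
      congrArg (fun f => f.hom x) (psi P).hom_inv_id
    exact h3.symm.trans h2
  have h4 : IsUnit ((psi P).hom.hom x) := (Ne.isUnit (G₀ := k) h1)
  have h5 := h4.map (psi P).inv.hom
  have h3 : (psi P).inv.hom ((psi P).hom.hom x) = x :=
    congrArg (fun f => f.hom x) (psi P).hom_inv_id
  rwa [h3] at h5

/-- the generator of the log structure is mapped to `0` -/
theorem alpha_pi : P.s.L.α ⊤ P.π = 0 := by
  by_contra h
  obtain ⟨u, hu⟩ := isUnit_of_ne P h
  have h1 : P.π = P.s.L.ofUnit u := P.s.L.ofUnit_unique u P.π hu.symm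
  obtain ⟨p, -, hp⟩ := P.gen P.π
  have e1 := hp (u, 0) (by
    change P.π = P.s.L.ofUnit u * P.π ^ 0
    rw [pow_zero, mul_one]; exact h1)
  have e2 := hp (1, 1) (by
    change P.π = P.s.L.ofUnit 1 * P.π ^ 1
    rw [LogStr.ofUnit_one, one_mul, pow_one])
  have := congrArg Prod.snd (e1.trans e2.symm)
  exact absurd this (by norm_num)

theorem sub_pt : Subsingleton P.s.X := by
  have hs : Subsingleton (Spec (.of k)) := inferInstanceAs (Subsingleton (PrimeSpectrum k))
  refine ⟨fun x y => ?_⟩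
  have h1 : P.e.hom x = P.e.hom y := Subsingleton.elim _ _
  have h2 : ∀ z : P.s.X, P.e.inv (P.e.hom z) = z := fun z =>
    congrArg (fun f : P.s.X ⟶ P.s.X => f z) P.e.hom_inv_id
  rw [← h2 x, ← h2 y, h1]

/-- a log point is the rank one log scheme `R (Spec k) 0` -/
noncomputable def toR : P.s ⟶ TT P.s.X :=
  R1.homTo (noUnit_zero P.s.X) (T := P.s) (𝟙 P.s.X) P.π
    ((alpha_pi P).trans (map_zero (Scheme.Hom.app (𝟙 P.s.X) ⊤).hom).symm)

theorem toR_f : LogScheme.Hom.f (toR P) = 𝟙 P.s.X := rfl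

theorem toR_gen : LogScheme.Hom.φ (toR P) ⊤ (yy P.s.X) = P.π :=
  R1.homTo_gen (noUnit_zero P.s.X) (T := P.s) (𝟙 P.s.X) P.π _

theorem bot_or_top (V : P.s.X.Opens) : V = ⊥ ∨ V = ⊤ := by
  have hs := sub_pt P
  by_cases h : ∃ x, x ∈ V
  · right
    obtain ⟨x, hx⟩ := h
    apply le_antisymm le_top
    intro y _
    rwa [Subsingleton.elim y x]
  · left
    apply le_antisymm _ bot_le
    intro y hy
    exact absurd ⟨y, hy⟩ h

theorem ext_bot {X : Scheme.{0}} (L : LogStr X) (a b : L.M ⊥) : a = b :=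
  L.ext_local a b (fun _ hx => absurd hx (by simp))

theorem pw_const {a : R1.Sec (0 : Γ(P.s.X, ⊤)) ⊤} {i : ℕ} (hi : ∀ y hy, a.n ⟨y, hy⟩ = i) :
    LogScheme.Hom.φ (toR P) ⊤ a = P.s.L.ofUnit a.u * P.π ^ i := by
  have h := R1.pw_res P.s.L (𝟙 P.s.X) P.π (le_refl (⊤ : P.s.X.Opens)) a i (fun y hy => hi y _)
  have e1 : LogScheme.Hom.φ (toR P) ⊤ a = R1.pw P.s.L (𝟙 P.s.X) P.π a := rfl
  rw [e1]
  refine ((P.s.L.res_id _ _).symm.trans h).trans ?_
  have e2 : P.s.L.res (le_top : (⊤ : P.s.X.Opens) ≤ ⊤) P.π = P.π := P.s.L.res_id _ _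
  have e3 : Units.map ((𝟙 P.s.X : P.s.X ⟶ P.s.X).app ⊤).hom.toMonoidHom
        (Units.map (R1.rs (le_refl (⊤ : P.s.X.Opens))).toMonoidHom a.u) = a.u := by
    apply Units.ext
    change ((𝟙 P.s.X : P.s.X ⟶ P.s.X).app ⊤).hom (R1.rs (le_refl (⊤ : P.s.X.Opens))
      (a.u : Γ(P.s.X, ⊤))) = (a.u : Γ(P.s.X, ⊤))
    rw [R1.rs_id, Scheme.Hom.id_app]
    rfl
  exact congrArg₂ (fun x y => P.s.L.ofUnit x * y ^ i) e3 e2

theorem exists_const (a : R1.Sec (0 : Γ(P.s.X, ⊤)) ⊤) : ∃ i, ∀ y hy, a.n ⟨y, hy⟩ = i := by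
  have hs := sub_pt P
  by_cases h : ∃ x : P.s.X, True
  · obtain ⟨x, -⟩ := h
    refine ⟨a.n ⟨x, trivial⟩, fun y hy => ?_⟩
    have : y = x := Subsingleton.elim _ _
    subst this
    rfl
  · exact ⟨0, fun y _ => absurd ⟨y, trivial⟩ h⟩

instance : IsIso (toR P) := by
  have : IsIso (LogScheme.Hom.f (toR P)) := inferInstanceAs (IsIso (𝟙 P.s.X))
  apply LogScheme.isIso_of_bijective
  intro V
  obtain rfl | rfl := bot_or_top P V
  · constructor
    · intro a b _
      exact ext_bot (tL P.s.X) a b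
    · intro b
      exact ⟨1, ext_bot P.s.L _ _⟩
  · constructor
    · intro a b h
      obtain ⟨i, hi⟩ := exists_const P a
      obtain ⟨j, hj⟩ := exists_const P b
      have h2 : P.s.L.ofUnit (R1.Sec.u (t := 0) a) * P.π ^ i =
          P.s.L.ofUnit (R1.Sec.u (t := 0) b) * P.π ^ j :=
        (pw_const P hi).symm.trans (h.trans (pw_const P hj))
      obtain ⟨p, -, hp⟩ := P.gen (P.s.L.ofUnit (R1.Sec.u (t := 0) a) * P.π ^ i)
      have e1 := hp (R1.Sec.u (t := 0) a, i) rfl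
      have e2 := hp (R1.Sec.u (t := 0) b, j) h2
      have e3 := e1.trans e2.symm
      refine R1.Sec.ext' _ _ (congrArg Prod.fst e3) ?_
      funext y
      rw [hi y.1 y.2, hj y.1 y.2]
      exact congrArg Prod.snd e3
    · intro b
      obtain ⟨⟨u, i⟩, hb, -⟩ := P.gen b
      let c : R1.Sec (0 : Γ(P.s.X, ⊤)) ⊤ := R1.unitSec 0 u *
        R1.Sec.res (le_top : (⊤ : P.s.X.Opens) ≤ ⊤) (R1.gen P.s.X 0) ^ i
      have hcu : c.u = u := by
        rw [R1.mul_u, R1.gen_pow_u, mul_one, R1.unitSec_u]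
      have hcn : ∀ y hy, c.n ⟨y, hy⟩ = i := fun y hy => by
        rw [R1.mul_n, R1.unitSec_n, Pi.add_apply, R1.gen_pow_n, Pi.zero_apply, zero_add]
      refine ⟨c, (pw_const P hcn).trans ?_⟩
      rw [hcu]
      exact hb.symm

theorem inv_f : LogScheme.Hom.f (X := TT P.s.X) (Y := P.s) (inv (toR P)) = 𝟙 P.s.X := by
  have h : LogScheme.Hom.f (toR P ≫ inv (toR P)) = LogScheme.Hom.f (𝟙 P.s) := by
    rw [IsIso.hom_inv_id]
  have h2 : (𝟙 P.s.X : P.s.X ⟶ P.s.X) ≫ LogScheme.Hom.f (X := TT P.s.X) (Y := P.s) (inv (toR P)) = 𝟙 P.s.X := h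
  rwa [Category.id_comp] at h2

theorem phi_eq {T X : LogScheme} {c d : T ⟶ X} (h : c = d) (m : X.M ⊤) :
    (show T.M ⊤ from c.φ ⊤ m) = d.φ ⊤ m := by
  subst h
  rfl

theorem inv_pi : (show (TT P.s.X).M ⊤ from LogScheme.Hom.φ (inv (toR P)) ⊤ P.π) = yy P.s.X := by
  have h := phi_eq (IsIso.inv_hom_id (toR P)) (yy P.s.X)
  have h2 : (show (TT P.s.X).M ⊤ from LogScheme.Hom.φ (inv (toR P)) ⊤
      (LogScheme.Hom.φ (toR P) ⊤ (yy P.s.X))) = yy P.s.X := h
  rw [toR_gen] at h2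
  exact h2

/-- morphisms to a log point -/
noncomputable def homS {T : LogScheme} (f : T.X ⟶ P.s.X) (m : T.M ⊤) (hm : T.L.α ⊤ m = 0) :
    T ⟶ P.s :=
  R1.homTo (noUnit_zero P.s.X) f m (hm.trans (map_zero (Scheme.Hom.app f ⊤).hom).symm) ≫
    inv (toR P)

theorem homS_f {T : LogScheme} (f : T.X ⟶ P.s.X) (m : T.M ⊤) (hm : T.L.α ⊤ m = 0) :
    (homS P f m hm).f = f := by
  change f ≫ LogScheme.Hom.f (X := TT P.s.X) (Y := P.s) (inv (toR P)) = f
  rw [inv_f, Category.comp_id]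

theorem homS_pi {T : LogScheme} (f : T.X ⟶ P.s.X) (m : T.M ⊤) (hm : T.L.α ⊤ m = 0) :
    (show T.M ⊤ from (homS P f m hm).φ ⊤ P.π) = m := by
  have h := phi_eq (c := homS P f m hm ≫ toR P) (d := R1.homTo (noUnit_zero P.s.X) f m
    (hm.trans (map_zero (Scheme.Hom.app f ⊤).hom).symm)) (by
      rw [homS, Category.assoc, IsIso.inv_hom_id, Category.comp_id]) (yy P.s.X)
  have h2 : (show T.M ⊤ from (homS P f m hm).φ ⊤ (LogScheme.Hom.φ (toR P) ⊤ (yy P.s.X))) = m :=
    h.trans (R1.homTo_gen (noUnit_zero P.s.X) f m _)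
  rw [toR_gen] at h2
  exact h2

theorem ext_pt {T : LogScheme} {a b : T ⟶ P.s} (hf : a.f = b.f)
    (hm : (show T.M ⊤ from a.φ ⊤ P.π) = b.φ ⊤ P.π) : a = b := by
  rw [← cancel_mono (toR P)]
  refine R1.hom_ext (noUnit_zero P.s.X) _ _ ?_ ?_
  · change a.f ≫ 𝟙 _ = b.f ≫ 𝟙 _
    rw [hf]
  · refine (T.L.res_id _ _).trans ?_
    change (show T.M ⊤ from a.φ ⊤ (LogScheme.Hom.φ (toR P) ⊤ (yy P.s.X))) =
      b.φ ⊤ (LogScheme.Hom.φ (toR P) ⊤ (yy P.s.X))
    rw [toR_gen]
    exact hm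

end pt

/-! ## The Kummer cover `s_m` -/

section kum

variable {k : Type} [Field k] (P : LNS.LogPt k) (m : ℕ)

/-- the ring `k̄[y]/(y^m)` -/
noncomputable abbrev KA (k : Type) [Field k] (m : ℕ) : Type :=
  AdjoinRoot ((Polynomial.X : Polynomial (AlgebraicClosure k)) ^ m)

/-- the scheme `Spec k̄[y]/(y^m)` -/
noncomputable abbrev KZ (k : Type) [Field k] (m : ℕ) : Scheme.{0} := Spec (.of (KA k m))

/-- the function `y` -/
noncomputable def yK (k : Type) [Field k] (m : ℕ) : Γ(KZ k m, ⊤) :=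
  (Scheme.ΓSpecIso (.of (KA k m))).inv.hom (AdjoinRoot.root _)

theorem root_pow (k : Type) [Field k] (m : ℕ) :
    (AdjoinRoot.root ((Polynomial.X : Polynomial (AlgebraicClosure k)) ^ m)) ^ m = 0 := by
  have h := AdjoinRoot.mk_self (f := (Polynomial.X : Polynomial (AlgebraicClosure k)) ^ m)
  rwa [map_pow, AdjoinRoot.mk_X] at h

theorem yK_pow (k : Type) [Field k] (m : ℕ) : yK k m ^ m = 0 := by
  rw [yK, ← map_pow, root_pow, map_zero]

/-- the inclusion of `k` -/
noncomputable def cK (k : Type) [Field k] (m : ℕ) : k →+* KA k m :=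
  (AdjoinRoot.of _).comp (algebraMap k (AlgebraicClosure k))

/-- the log scheme `Spec k̄[y]/(y^m)` with the log structure `O^× × y^ℕ` -/
noncomputable def kumS (k : Type) [Field k] (m : ℕ) : LogScheme :=
  R (KZ k m) (yK k m) (RL.noUnit_of_nilp _ _ ⟨m, yK_pow k m⟩)

/-- the generator `y` of the log structure -/
noncomputable def yM (k : Type) [Field k] (m : ℕ) : (kumS k m).M ⊤ := R1.gen (KZ k m) (yK k m)

theorem alpha_yM : (kumS k m).L.α ⊤ (yM k m ^ m) = 0 := by
  rw [map_pow]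
  exact yK_pow k m

/-- the Kummer cover `s_m` of the log point `s`: `π ↦ y^m` -/
noncomputable def kum : Over P.s :=
  Over.mk (homS P (T := kumS k m) (Spec.map (CommRingCat.ofHom (cK k m)) ≫ P.e.inv)
    (yM k m ^ m) (alpha_yM m))

theorem kum_f : (kum P m).hom.f = Spec.map (CommRingCat.ofHom (cK k m)) ≫ P.e.inv :=
  homS_f P (T := kumS k m) _ _ (alpha_yM m)

theorem pi_kum : P.piU (kum P m) = (yM k m ^ m : (kumS k m).M ⊤) :=
  homS_pi P (T := kumS k m) _ _ (alpha_yM m)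

theorem kMap_kum (x : k) : P.kMap (kum P m) x =
    (Scheme.ΓSpecIso (.of (KA k m))).inv.hom (cK k m x) := by
  have e0 : P.kMap (kum P m) x = (kum P m).hom.f.appTop.hom (P.e.hom.appTop.hom
      ((Scheme.ΓSpecIso (.of k)).inv.hom x)) := rfl
  have e1 := kum_f P m
  rw [e0, e1, Scheme.Hom.comp_appTop]
  change (Spec.map (CommRingCat.ofHom (cK k m))).appTop.hom (P.e.inv.appTop.hom
    (P.e.hom.appTop.hom ((Scheme.ΓSpecIso (.of k)).inv.hom x))) = _
  have e2 : ∀ z, P.e.inv.appTop.hom (P.e.hom.appTop.hom z) = z := fun z => by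
    have h1 := congrArg (fun f => f.hom z) (Scheme.Hom.comp_appTop P.e.inv P.e.hom)
    rw [P.e.inv_hom_id] at h1
    have h2 : ((𝟙 (Spec (.of k)) : Spec (.of k) ⟶ Spec (.of k)).appTop).hom z = z := by
      rw [Scheme.Hom.id_appTop]
      rfl
    exact h1.symm.trans h2
  rw [e2]
  have h3 := congrArg (fun f => f.hom x)
    (Scheme.ΓSpecIso_inv_naturality (CommRingCat.ofHom (cK k m)))
  exact h3.symm

/-- the universal section of `T m` over `s_m` -/
noncomputable def univ : P.TSec m (kum P m) where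
  ι := (Scheme.ΓSpecIso (.of (KA k m))).inv.hom.comp (AdjoinRoot.of _)
  y := yM k m
  hιC x := (kMap_kum P m x).symm
  hyC := (pi_kum P m).symm

variable {P m}

/-- the ring homomorphism given by a section of `T m` -/
noncomputable def rho {U : Over P.s} (a : P.TSec m U) : KA k m →+* LNS.fn P.s U :=
  AdjoinRoot.lift a.ι (U.left.L.α ⊤ a.y) (by
    rw [Polynomial.eval₂_pow, Polynomial.eval₂_X, ← map_pow, a.hy]
    have h1 : U.left.L.α ⊤ (P.piU U) = U.hom.f.appTop.hom (P.s.L.α ⊤ P.π) := U.hom.φ_α ⊤ P.π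
    rw [h1, alpha_pi, map_zero])

theorem rho_of {U : Over P.s} (a : P.TSec m U) (z : AlgebraicClosure k) :
    rho a (AdjoinRoot.of _ z) = a.ι z := AdjoinRoot.lift_of _

theorem rho_root {U : Over P.s} (a : P.TSec m U) :
    rho a (AdjoinRoot.root _) = U.left.L.α ⊤ a.y := AdjoinRoot.lift_root _

/-- the morphism of schemes given by a section of `T m` -/
noncomputable def fK {U : Over P.s} (a : P.TSec m U) : U.left.X ⟶ KZ k m :=
  toSp (R := .of (KA k m)) (CommRingCat.ofHom (rho a))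

theorem fK_app {U : Over P.s} (a : P.TSec m U) (z : KA k m) :
    (fK a).appTop.hom ((Scheme.ΓSpecIso (.of (KA k m))).inv.hom z) = rho a z := by
  rw [fK, toSp_appTop]
  change rho a ((Scheme.ΓSpecIso (.of (KA k m))).hom.hom
    ((Scheme.ΓSpecIso (.of (KA k m))).inv.hom z)) = rho a z
  congr 1
  exact congrArg (fun f => f.hom z) (Scheme.ΓSpecIso (.of (KA k m))).inv_hom_id

/-- the morphism of log schemes given by a section of `T m` -/
noncomputable def hK {U : Over P.s} (a : P.TSec m U) : U.left ⟶ kumS k m :=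
  R1.homTo (RL.noUnit_of_nilp _ _ ⟨m, yK_pow k m⟩) (fK a) a.y
    ((rho_root a).symm.trans (fK_app a _).symm)

theorem hK_y {U : Over P.s} (a : P.TSec m U) :
    (show U.left.M ⊤ from (hK a).φ ⊤ (yM k m)) = a.y := R1.homTo_gen _ _ _ _

/-- the morphism over `s` given by a section of `T m` -/
noncomputable def gK {U : Over P.s} (a : P.TSec m U) : U ⟶ kum P m :=
  Over.homMk (hK a) (by
    refine ext_pt P ?_ ?_
    · have e1 := kum_f P m
      change fK a ≫ (kum P m).hom.f = U.hom.f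
      rw [e1, ← Category.assoc, Iso.comp_inv_eq]
      apply ext_of_isAffine
      rw [Scheme.Hom.comp_appTop, Scheme.Hom.comp_appTop]
      rw [← cancel_epi (Scheme.ΓSpecIso (.of k)).inv]
      apply CommRingCat.hom_ext
      ext x
      have h1 := a.hι x
      have h3 := congrArg (fun f => f.hom x)
        (Scheme.ΓSpecIso_inv_naturality (CommRingCat.ofHom (cK k m)))
      change (fK a).appTop.hom ((Spec.map (CommRingCat.ofHom (cK k m))).appTop.hom
        ((Scheme.ΓSpecIso (.of k)).inv.hom x)) = P.kMap U x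
      refine (congrArg (fK a).appTop.hom h3.symm).trans ?_
      refine (fK_app a (cK k m x)).trans ?_
      exact (rho_of a _).trans h1
    · change (show U.left.M ⊤ from (hK a).φ ⊤ ((kum P m).hom.φ ⊤ P.π)) = P.piU U
      have h1 := pi_kum P m
      have h2 : (show U.left.M ⊤ from (hK a).φ ⊤ (yM k m ^ m)) = a.y ^ m := by
        have := map_pow ((hK a).φ ⊤) (yM k m) m
        exact this.trans (congrArg (fun z : U.left.M ⊤ => z ^ m) (hK_y a))
      exact (congrArg ((hK a).φ ⊤) h1).trans (h2.trans a.hy))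

theorem res_gK {U : Over P.s} (a : P.TSec m U) : LNS.LogPt.TSec.res P (gK a) (univ P m) = a := by
  apply LNS.LogPt.TSec.ext'
  · ext z
    exact (fK_app a _).trans (rho_of a z)
  · exact hK_y a

theorem res_inj {U : Over P.s} (g h : U ⟶ kum P m)
    (e : LNS.LogPt.TSec.res P g (univ P m) = LNS.LogPt.TSec.res P h (univ P m)) : g = h := by
  have e1 := congrArg LNS.LogPt.TSec.ι e
  have e2 : (show U.left.M ⊤ from g.left.φ ⊤ (yM k m)) = h.left.φ ⊤ (yM k m) :=
    congrArg LNS.LogPt.TSec.y e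
  apply Over.OverMorphism.ext
  refine R1.hom_ext (RL.noUnit_of_nilp _ _ ⟨m, yK_pow k m⟩) _ _ ?_ ((U.left.L.res_id _ _).trans e2)
  refine ext_of_isAffine (Y := KZ k m) ?_
  rw [← cancel_epi (Scheme.ΓSpecIso (.of (KA k m))).inv]
  apply CommRingCat.hom_ext
  apply AdjoinRoot.ringHom_ext
  · ext z
    exact congrArg (fun f => f z) e1
  · change g.left.f.appTop.hom (yK k m) = h.left.f.appTop.hom (yK k m)
    have e3 : U.left.L.α ⊤ (g.left.φ ⊤ (yM k m)) = g.left.f.appTop.hom (yK k m) :=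
      g.left.φ_α ⊤ (yM k m)
    have e4 : U.left.L.α ⊤ (h.left.φ ⊤ (yM k m)) = h.left.f.appTop.hom (yK k m) :=
      h.left.φ_α ⊤ (yM k m)
    exact e3.symm.trans ((congrArg (U.left.L.α ⊤) e2).trans e4)

variable (P m)

/-- The presheaf `T m` is represented by the Kummer cover `s_m` of the log point: the fs log scheme
`Spec k̄[y]/(y^m)` with the log structure `O^× × y^ℕ`, over `s` by `π ↦ y^m`. -/
noncomputable def repr : (P.T m).RepresentableBy (kum P m) where
  homEquiv {U} :=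
    { toFun := fun g => ⟨LNS.LogPt.TSec.res P g (univ P m)⟩
      invFun := fun a => gK a.down
      left_inv := fun g => res_inj _ _ (res_gK _)
      right_inv := fun a => ULift.ext _ _ (res_gK a.down) }
  homEquiv_comp f g := by
    apply LNS.LogPt.ulift_ext
    · change (LNS.fnMap (f ≫ g)).comp _ = (LNS.fnMap f).comp ((LNS.fnMap g).comp _)
      rw [LNS.fnMap_comp]
      rfl
    · rfl

end kum

end Pool.Agent.LNQ
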